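import Mathlib
import Pool.Agent.Hhelper7.FPure.Bounded

/-!
# Every excellent regular ring of prime characteristic is F-pure regular
-/

open IsLocalRing TensorProduct

universe u

namespace Pool.Agent.Results.MP_9ff724_al.ExcellentRegular

/-! ### Pure maps and F-pure regularity -/

/-- A linear map `f : M → N` is pure if `f ⊗ P` is injective for every module `P`. -/
def IsPureMap {R : Type u} [CommRing R] {M N : Type u} [AddCommGroup M] [Module R M]
    [AddCommGroup N] [Module R N] (f : M →ₗ[R] N) : Prop :=
  ∀ (P : Type u) [AddCommGroup P] [Module R P], Function.Injective (LinearMap.rTensor P f)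

/-- `F^e_* R`: the additive group of `R`, viewed as an `R`-module through the `e`-th iterate of
Frobenius, i.e. `r • F^e_* s = F^e_* (r ^ (p ^ e) * s)`. -/
def FrobPush (R : Type u) (_p _e : ℕ) : Type u := R

/-- The element `F^e_* s` of `F^e_* R`. -/
def FrobPush.mk {R : Type u} (p e : ℕ) (s : R) : FrobPush R p e := s

instance (R : Type u) [CommRing R] (p e : ℕ) : AddCommGroup (FrobPush R p e) :=
  inferInstanceAs (AddCommGroup R)

instance (R : Type u) [CommRing R] (p e : ℕ) [Fact p.Prime] [CharP R p] :
    Module R (FrobPush R p e) :=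
  Module.compHom R (iterateFrobenius R p e)

theorem FrobPush.smul_mk {R : Type u} [CommRing R] (p e : ℕ) [Fact p.Prime] [CharP R p] (r s : R) :
    r • FrobPush.mk p e s = FrobPush.mk p e (r ^ (p ^ e) * s) := by
  show FrobPush.mk p e (iterateFrobenius R p e r * s) = _
  rw [iterateFrobenius_def]

/-- The `R`-linear map `λ^e_c : R → F^e_* R` with `1 ↦ F^e_* c`. -/
def lam {R : Type u} [CommRing R] (p : ℕ) [Fact p.Prime] [CharP R p] (e : ℕ) (c : R) :
    R →ₗ[R] FrobPush R p e :=
  LinearMap.toSpanSingleton R (FrobPush R p e) (FrobPush.mk p e c)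

theorem lam_apply {R : Type u} [CommRing R] (p : ℕ) [Fact p.Prime] [CharP R p] (e : ℕ) (c r : R) :
    lam p e c r = FrobPush.mk p e (r ^ (p ^ e) * c) :=
  FrobPush.smul_mk p e r c

/-- `R` is F-pure regular: for every `c` in no minimal prime there is `e ≥ 1` such that `λ^e_c` is
pure. -/
def IsFPureRegular (R : Type u) [CommRing R] (p : ℕ) [Fact p.Prime] [CharP R p] : Prop :=
  ∀ c : R, (∀ P ∈ minimalPrimes R, c ∉ P) → ∃ e : ℕ, 1 ≤ e ∧ IsPureMap (lam p e c)

/-! ### Excellent rings -/

/-- `S` is catenary: any two saturated chains of primes with the same end points have the same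
length. -/
def IsCatenaryRing (S : Type u) [CommRing S] : Prop :=
  ∀ s t : RelSeries {(a, b) : PrimeSpectrum S × PrimeSpectrum S | a ⋖ b},
    s.head = t.head → s.last = t.last → s.length = t.length

/-- The formal fibres of `R` are geometrically regular: for every prime `P` of `R`, every prime `q`
of `R_P` and every finite extension `L` of the residue field of `q`, the ring
`L ⊗ (completion of R_P)` is regular. -/
def IsGRing (R : Type u) [CommRing R] : Prop :=
  ∀ (P : Ideal R) [P.IsPrime] (q : Ideal (Localization.AtPrime P)) [q.IsPrime]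
    (L : Type u) [Field L] [Algebra q.ResidueField L] [Algebra (Localization.AtPrime P) L]
    [IsScalarTower (Localization.AtPrime P) q.ResidueField L],
    FiniteDimensional q.ResidueField L →
    IsRegularRing (L ⊗[Localization.AtPrime P]
      AdicCompletion (maximalIdeal (Localization.AtPrime P)) (Localization.AtPrime P))

/-- `R` is J-2: every `R`-algebra of finite type has an open regular locus. -/
def IsJ2Ring (R : Type u) [CommRing R] : Prop :=
  ∀ (S : Type u) [CommRing S] [Algebra R S], Algebra.FiniteType R S →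
    IsOpen {Q : PrimeSpectrum S | IsRegularLocalRing (Localization.AtPrime Q.asIdeal)}

/-- `R` is excellent: noetherian, universally catenary, with geometrically regular formal fibres,
and J-2. -/
structure IsExcellentRing (R : Type u) [CommRing R] : Prop where
  isNoetherian : IsNoetherianRing R
  universallyCatenary : ∀ (S : Type u) [CommRing S] [Algebra R S], Algebra.FiniteType R S →
    IsCatenaryRing S
  isGRing : IsGRing R
  isJ2 : IsJ2Ring R

/-! ### The proof -/

section proof

theorem isPureMap_of_flat {R : Type u} [CommRing R] {M : Type u} [AddCommGroup M] [Module R M]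
    [Module.Flat R M] (c : M)
    (hc : ∀ m : Ideal R, m.IsMaximal → c ∉ (m • (⊤ : Submodule R M))) :
    IsPureMap (LinearMap.toSpanSingleton R M c) := by
  intro P _ _
  rw [injective_iff_map_eq_zero]
  intro t ht
  obtain ⟨x, rfl⟩ := (TensorProduct.lid R P).symm.surjective t
  rw [TensorProduct.lid_symm_apply, LinearMap.rTensor_tmul, LinearMap.toSpanSingleton_apply,
    one_smul] at ht
  by_contra hne
  have hx : x ≠ 0 := by
    rintro rfl
    exact hne (map_zero _)
  -- the annihilator of `x`
  let I : Ideal R := LinearMap.ker (LinearMap.toSpanSingleton R P x)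
  have hI : I ≠ ⊤ := by
    intro h
    have h2 : (1 : R) ∈ I := by rw [h]; exact Submodule.mem_top
    rw [LinearMap.mem_ker, LinearMap.toSpanSingleton_apply, one_smul] at h2
    exact hx h2
  obtain ⟨m, hm, hIm⟩ := Ideal.exists_le_maximal I hI
  let j : (R ⧸ I) →ₗ[R] P := I.liftQ (LinearMap.toSpanSingleton R P x) le_rfl
  have hj : Function.Injective j := by
    rw [← LinearMap.ker_eq_bot]
    exact Submodule.ker_liftQ_eq_bot _ _ _ le_rfl
  have h3 : Function.Injective (LinearMap.lTensor M j) :=
    Module.Flat.lTensor_preserves_injective_linearMap j hj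
  have h4 : c ⊗ₜ[R] (Ideal.Quotient.mk I 1) = 0 := by
    apply h3
    rw [LinearMap.lTensor_tmul, map_zero]
    have h5 : j (Ideal.Quotient.mk I 1) = x := by
      show (LinearMap.toSpanSingleton R P x) 1 = x
      rw [LinearMap.toSpanSingleton_apply, one_smul]
    rw [h5]
    exact ht
  have h6 : c ∈ (I • (⊤ : Submodule R M)) := by
    have h7 := congrArg (TensorProduct.tensorQuotEquivQuotSMul M I) h4
    rw [map_zero, TensorProduct.tensorQuotEquivQuotSMul_tmul_mk, one_smul,
      Submodule.Quotient.mk_eq_zero] at h7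
    exact h7
  exact hc m hm (Submodule.smul_mono_left hIm h6)

variable {R : Type u} [CommRing R] (p : ℕ) [hp : Fact p.Prime] [CharP R p]

theorem flat_frobPush [IsRegularRing R] (e : ℕ) : Module.Flat R (FrobPush R p e) :=
  Pool.Agent.Hhelper7.FPure.flat_iterateFrobenius R p e

theorem mem_map_of_mem_smul_top (I : Ideal R) (e : ℕ) (c : R)
    (h : FrobPush.mk p e c ∈ (I • (⊤ : Submodule R (FrobPush R p e)))) :
    c ∈ I.map (iterateFrobenius R p e) := by
  let J : Submodule R (FrobPush R p e) :=
    { carrier := ((I.map (iterateFrobenius R p e) : Ideal R) : Set R)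
      add_mem' := fun {a b} ha hb => Ideal.add_mem (I.map (iterateFrobenius R p e)) ha hb
      zero_mem' := Ideal.zero_mem (I.map (iterateFrobenius R p e))
      smul_mem' := fun r x hx =>
        Ideal.mul_mem_left (I.map (iterateFrobenius R p e)) (iterateFrobenius R p e r) hx }
  have h1 : (I • (⊤ : Submodule R (FrobPush R p e))) ≤ J := by
    rw [Submodule.smul_le]
    intro r hr n _
    exact Ideal.mul_mem_right (show R from n) (I.map (iterateFrobenius R p e))
      (Ideal.mem_map_of_mem _ hr)
  exact h1 h

/-- Regular rings all of whose quotient domains have a regular locus with non-empty interior are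
F-pure regular. -/
theorem isFPureRegular_of_J0 [IsRegularRing R]
    (hJ : ∀ (P : Ideal R) [P.IsPrime], ∃ g, g ∉ P ∧
      ∀ (Q : Ideal (R ⧸ P)) [Q.IsPrime], Ideal.Quotient.mk P g ∉ Q →
        IsRegularLocalRing (Localization.AtPrime Q)) : IsFPureRegular R p := by
  intro c hc
  obtain ⟨e, he⟩ := Pool.Agent.Hhelper7.FPure.exists_uniform p c
    (fun P _ => Pool.Agent.Hhelper7.FPure.algebraMap_ne_zero_of_notMem P c hc) hJ ⊥
  refine ⟨e + 1, by omega, ?_⟩
  have hflat := flat_frobPush (R := R) p (e + 1)
  refine isPureMap_of_flat _ ?_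
  intro m hm hcm
  have h1 := mem_map_of_mem_smul_top p m (e + 1) c hcm
  exact he m hm.isPrime bot_le
    (Pool.Agent.Hhelper7.FPure.map_iterateFrobenius_anti p m (Nat.le_succ e) h1)

omit [CharP R p] hp in
theorem exists_J0 (h : IsJ2Ring R) (P : Ideal R) [P.IsPrime] : ∃ g, g ∉ P ∧
      ∀ (Q : Ideal (R ⧸ P)) [Q.IsPrime], Ideal.Quotient.mk P g ∉ Q →
        IsRegularLocalRing (Localization.AtPrime Q) := by
  have hopen := h (R ⧸ P) inferInstance
  let η : PrimeSpectrum (R ⧸ P) := ⟨⊥, Ideal.isPrime_bot⟩
  have hη : η ∈ {Q : PrimeSpectrum (R ⧸ P) |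
      IsRegularLocalRing (Localization.AtPrime Q.asIdeal)} := by
    show IsRegularLocalRing (Localization.AtPrime (⊥ : Ideal (R ⧸ P)))
    have hf : IsField (Localization.AtPrime (⊥ : Ideal (R ⧸ P))) := by
      rw [isField_iff_maximalIdeal_eq, ← Localization.AtPrime.map_eq_maximalIdeal, Ideal.map_bot]
    let := hf.toField
    infer_instance
  obtain ⟨_, ⟨g', rfl⟩, hg1, hg2⟩ := PrimeSpectrum.isTopologicalBasis_basic_opens.isOpen_iff.mp
    hopen η hη
  obtain ⟨g, rfl⟩ := Ideal.Quotient.mk_surjective g'
  refine ⟨g, ?_, ?_⟩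
  · intro hg
    have h1 : Ideal.Quotient.mk P g ∉ (⊥ : Ideal (R ⧸ P)) := hg1
    exact h1 ((Submodule.mem_bot _).mpr (Ideal.Quotient.eq_zero_iff_mem.mpr hg))
  · intro Q hQ hgQ
    exact hg2 (show (⟨Q, hQ⟩ : PrimeSpectrum (R ⧸ P)) ∈
      ((PrimeSpectrum.basicOpen (Ideal.Quotient.mk P g) : Set (PrimeSpectrum (R ⧸ P)))) from hgQ)

end proof

/-- **Main result**: every excellent regular ring of prime characteristic is F-pure regular. -/
theorem result (R : Type u) [CommRing R] (p : ℕ) [Fact p.Prime] [CharP R p]
    (hexc : IsExcellentRing R) (hreg : IsRegularRing R) : IsFPureRegular R p :=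
  isFPureRegular_of_J0 p fun P _ => exists_J0 hexc.isJ2 P

end Pool.Agent.Results.MP_9ff724_al.ExcellentRegular
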